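import Mathlib
import Pool.Agent.Helper88.OGT.Frozen

/-!
MP_09f6a2_lc, Q1, negative answer in a strengthened form and for both coding conventions
(linear orders as strict or as reflexive relations): no Polish topology on M makes the logic action
of the permutation group of the natural numbers even separately continuous; the same for every
invariant class of codes of homogeneous linear orders that contains all powers of Z.
-/

set_option autoImplicit false

namespace Pool.Agent.Results.MP_09f6a2_lc.NoPolishTopology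

/-- A code: a point of the Cantor space over pairs of natural numbers. -/
abbrev Code : Type := ℕ × ℕ → Bool

/-- The finitely supported integer sequences indexed by the ordinals below `α`. -/
def ZPow (α : Ordinal.{0}) : Type 1 :=
  {f : Set.Iio α → ℤ // (Function.support f).Finite}

/-- `f < g` iff `f` is smaller than `g` at the largest place where they differ. -/
def ZPow.lt {α : Ordinal.{0}} (f g : ZPow α) : Prop :=
  ∃ β, f.1 β < g.1 β ∧ ∀ γ, β < γ → f.1 γ = g.1 γ

/-- The order of `ZPow α` times the rationals: a copy of `ZPow α` at every rational. -/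
def QZlt {α : Ordinal.{0}} (p q : ℚ × ZPow α) : Prop :=
  p.1 < q.1 ∨ (p.1 = q.1 ∧ ZPow.lt p.2 q.2)

/-- `x` is the code of a relation on the natural numbers that is carried by a bijection to the
strict order `r` on `A` (if `strict = true`) or to its reflexive form (if `strict = false`). -/
def Codes (strict : Bool) {A : Type 1} (r : A → A → Prop) (x : Code) : Prop :=
  ∃ e : ℕ ≃ A, ∀ m n : ℕ, x (m, n) = true ↔ (r (e m) (e n) ∨ (strict = false ∧ e m = e n))

/-- The set `M` of the problem, for the strict and for the reflexive convention. -/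
def M (strict : Bool) : Set Code :=
  {x | ∃ α : Ordinal.{0}, α.card ≤ Cardinal.aleph0 ∧
    (Codes strict (ZPow.lt (α := α)) x ∨ Codes strict (QZlt (α := α)) x)}

/-- The logic action. -/
def act (g : Equiv.Perm ℕ) (x : Code) : Code := fun p => x (g.symm p.1, g.symm p.2)

/-- The topology of pointwise convergence on the permutation group. -/
@[reducible] def permTop : TopologicalSpace (Equiv.Perm ℕ) :=
  TopologicalSpace.induced (fun g : Equiv.Perm ℕ => (⇑g : ℕ → ℕ)) inferInstance

/-- Invariant classes of codes of homogeneous linear orders that contain all codes of the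
countable powers of the integers. -/
structure Good (strict : Bool) (N : Set Code) : Prop where
  inv : ∀ x ∈ N, ∀ g : Equiv.Perm ℕ, act g x ∈ N
  hom : ∀ x ∈ N, ∃ r : ℕ → ℕ → Prop, IsStrictTotalOrder ℕ r ∧
    (∀ m n, x (m, n) = true ↔ (r m n ∨ (strict = false ∧ m = n))) ∧
    ∀ m n, ∃ g : Equiv.Perm ℕ, g m = n ∧ ∀ a b, r (g a) (g b) ↔ r a b
  pow : ∀ α : Ordinal.{0}, α.card ≤ Cardinal.aleph0 → ∀ x, Codes strict (ZPow.lt (α := α)) x → x ∈ N

section proof

open Pool.Agent.Helper88.OGT hiding permTop

attribute [local instance] Pool.Agent.Helper88.OGT.permTop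

/-- comparison with the form used in the helper files -/
noncomputable def toZPow (α : Ordinal.{0}) : ZA α ≃ ZPow α where
  toFun f := ⟨fun β => f.1 β.1, by
    refine Set.Finite.of_finite_image (f := Subtype.val) (f.2.2.subset ?_)
      (Subtype.val_injective.injOn)
    rintro _ ⟨β, hβ, rfl⟩
    exact hβ⟩
  invFun g := ⟨fun β => open Classical in if h : β < α then g.1 ⟨β, h⟩ else 0, by
    classical
    refine ⟨fun β hβ => ?_, ?_⟩
    · by_contra hcon
      simp [hcon] at hβ
    · refine (g.2.image Subtype.val).subset ?_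
      intro β hβ
      simp only [Function.mem_support] at hβ
      by_cases h : β < α
      · simp only [h, dif_pos] at hβ
        exact ⟨⟨β, h⟩, hβ, rfl⟩
      · simp [h] at hβ⟩
  left_inv f := by
    apply Subtype.ext
    funext β
    by_cases h : β < α
    · simp [h]
    · simp only [h, dif_neg, not_false_eq_true]
      by_contra hcon
      exact h (f.2.1 β (fun h0 => hcon h0.symm))
  right_inv g := by
    apply Subtype.ext
    funext β
    have h : (β : Ordinal.{0}) < α := β.2
    simp [h]

theorem toZPow_lt {α : Ordinal.{0}} (f g : ZA α) :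
    ZPow.lt (toZPow α f) (toZPow α g) ↔ ltZ f.1 g.1 := by
  constructor
  · rintro ⟨β, h1, h2⟩
    refine ⟨β.1, h1, fun γ hγ => ?_⟩
    by_cases h : γ < α
    · exact h2 ⟨γ, h⟩ hγ
    · have hf : f.1 γ = 0 := by
        by_contra hcon
        exact h (f.2.1 γ hcon)
      have hg : g.1 γ = 0 := by
        by_contra hcon
        exact h (g.2.1 γ hcon)
      rw [hf, hg]
  · rintro ⟨β, h1, h2⟩
    have hβ : β < α := by
      by_contra hcon
      have hf : f.1 β = 0 := by
        by_contra hc
        exact hcon (f.2.1 β hc)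
      have hg : g.1 β = 0 := by
        by_contra hc
        exact hcon (g.2.1 β hc)
      rw [hf, hg] at h1
      exact lt_irrefl _ h1
    exact ⟨⟨β, hβ⟩, h1, fun γ hγ => h2 γ.1 hγ⟩

/-- the reflexive form of a code -/
def toRefl (x : Code) : Code := fun p => x p || decide (p.1 = p.2)

theorem toRefl_iff {x : Code} {m n : ℕ} : toRefl x (m, n) = true ↔ (x (m, n) = true ∨ m = n) := by
  simp [toRefl]

theorem toRefl_inj {strict : Bool} {N : Set Code} (hN : Good strict N) {x y : Code} (hx : x ∈ N)
    (hy : y ∈ N) (h : toRefl x = toRefl y) : x = y := by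
  obtain ⟨r, hr, hxr, -⟩ := hN.hom x hx
  obtain ⟨s, hs, hys, -⟩ := hN.hom y hy
  funext ⟨m, n⟩
  rw [Bool.eq_iff_iff]
  by_cases hmn : m = n
  · subst hmn
    rw [hxr, hys]
    have h1 : ¬ r m m := hr.toIsStrictOrder.toIrrefl.irrefl m
    have h2 : ¬ s m m := hs.toIsStrictOrder.toIrrefl.irrefl m
    simp [h1, h2]
  · have := congrFun h (m, n)
    rw [Bool.eq_iff_iff, toRefl_iff, toRefl_iff] at this
    simpa [hmn] using this

theorem cls_image {strict : Bool} {N : Set Code} (hN : Good strict N) : Cls (toRefl '' N) where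
  refl := by
    rintro _ ⟨x, hx, rfl⟩ m
    exact toRefl_iff.2 (Or.inr rfl)
  antisymm := by
    rintro _ ⟨x, hx, rfl⟩ m n h1 h2
    obtain ⟨r, hr, hxr, -⟩ := hN.hom x hx
    rw [toRefl_iff, hxr] at h1 h2
    by_contra hmn
    have hnm : ¬ n = m := fun h => hmn h.symm
    simp only [hmn, hnm, and_false, or_false] at h1 h2
    exact hr.toIsStrictOrder.toIrrefl.irrefl m (hr.toIsStrictOrder.toIsTrans.trans _ _ _ h1 h2)
  trans := by
    rintro _ ⟨x, hx, rfl⟩ m n k h1 h2
    by_cases hmn : m = n
    · rw [hmn]; exact h2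
    by_cases hnk : n = k
    · rw [← hnk]; exact h1
    obtain ⟨r, hr, hxr, -⟩ := hN.hom x hx
    rw [toRefl_iff, hxr] at h1 h2 ⊢
    simp only [hmn, hnk, and_false, or_false] at h1 h2
    exact Or.inl (Or.inl (hr.toIsStrictOrder.toIsTrans.trans _ _ _ h1 h2))
  total := by
    rintro _ ⟨x, hx, rfl⟩ m n
    obtain ⟨r, hr, hxr, -⟩ := hN.hom x hx
    rw [toRefl_iff, toRefl_iff, hxr, hxr]
    by_cases h1 : r m n
    · exact Or.inl (Or.inl (Or.inl h1))
    · by_cases h2 : r n m
      · exact Or.inr (Or.inl (Or.inl h2))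
      · exact Or.inl (Or.inr (hr.toTrichotomous.trichotomous _ _ h1 h2))
  inv := by
    rintro _ ⟨x, hx, rfl⟩ g
    refine ⟨act g.symm x, hN.inv x hx g.symm, ?_⟩
    funext ⟨m, n⟩
    rw [Bool.eq_iff_iff, toRefl_iff, toRefl_iff, g.injective.eq_iff]
    exact Iff.rfl
  hom := by
    rintro _ ⟨x, hx, rfl⟩ m n
    obtain ⟨r, hr, hxr, hom⟩ := hN.hom x hx
    obtain ⟨g, hg, hg'⟩ := hom m n
    refine ⟨g, hg, fun a b => ?_⟩
    rw [Bool.eq_iff_iff, toRefl_iff, toRefl_iff, hxr, hxr, hg', g.injective.eq_iff]
  mem := by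
    classical
    intro I _ _ r _ ι
    let e : ℕ ≃ ZPow (Ordinal.type r) := ι.trans ((toZA r).trans (toZPow _))
    let y : Code := fun p => decide (ZPow.lt (e p.1) (e p.2) ∨ (strict = false ∧ e p.1 = e p.2))
    have hlt : ∀ m n, ZPow.lt (e m) (e n) ↔ pos r (fun _ => true) (ι n - ι m) := fun m n => by
      show ZPow.lt (toZPow _ (toZA r (ι m))) (toZPow _ (toZA r (ι n))) ↔ _
      rw [toZPow_lt, toZA_lt]
    refine ⟨y, hN.pow (Ordinal.type r) ?_ y ⟨e, fun m n => ?_⟩, ?_⟩
    · rw [Ordinal.card_type]; exact Cardinal.mk_le_aleph0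
    · show decide _ = true ↔ _
      rw [decide_eq_true_iff]
    · funext ⟨m, n⟩
      rw [Bool.eq_iff_iff, toRefl_iff, codeOf_iff]
      show decide _ = true ∨ _ ↔ _
      rw [decide_eq_true_iff, hlt, e.injective.eq_iff]
      tauto

theorem noTop {strict : Bool} {N : Set Code} (hN : Good strict N) (t : TopologicalSpace N)
    (hP : @PolishSpace N t) (a : Equiv.Perm ℕ → N → N)
    (ha : ∀ g x, ((a g x : N) : Code) = act g x)
    (h1 : ∀ g, @Continuous N N t t (a g))
    (h2 : ∀ x, @Continuous (Equiv.Perm ℕ) N permTop t fun g => a g x) : False := by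
  let E : N ≃ (toRefl '' N : Set Code) := Equiv.ofBijective
    (fun x => ⟨toRefl x.1, x.1, x.2, rfl⟩) ⟨fun x y hxy => by
      apply Subtype.ext
      exact toRefl_inj hN x.2 y.2 (congrArg Subtype.val hxy), by
      rintro ⟨_, x, hx, rfl⟩
      exact ⟨⟨x, hx⟩, rfl⟩⟩
  let t' : TopologicalSpace (toRefl '' N : Set Code) := TopologicalSpace.induced E.symm t
  let H : (toRefl '' N : Set Code) ≃ₜ N := E.symm.toHomeomorphOfIsInducing ⟨rfl⟩
  have hP' : PolishSpace (toRefl '' N : Set Code) := H.isClosedEmbedding.polishSpace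
  have hact : ∀ (u : Equiv.Perm ℕ) (x : (toRefl '' N : Set Code)),
      Pool.Agent.Helper88.OGT.act (cls_image hN) u x = E (a u⁻¹ (E.symm x)) := by
    intro u x
    obtain ⟨x, rfl⟩ := E.surjective x
    rw [Equiv.symm_apply_apply]
    apply Subtype.ext
    show (fun p : ℕ × ℕ => toRefl x.1 (u p.1, u p.2)) = toRefl (a u⁻¹ x : N).1
    rw [ha]
    funext ⟨m, n⟩
    rw [Bool.eq_iff_iff]
    show toRefl x.1 (u m, u n) = true ↔ _
    rw [toRefl_iff, toRefl_iff, u.injective.eq_iff]
    exact Iff.rfl
  refine main_abstract (cls_image hN) t' hP' (fun u => ?_) (fun x => ?_)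
  · have : Pool.Agent.Helper88.OGT.act (cls_image hN) u = fun x => E (a u⁻¹ (E.symm x)) :=
      funext (hact u)
    rw [this]
    exact (H.symm.continuous.comp (h1 u⁻¹)).comp H.continuous
  · have : (fun u => Pool.Agent.Helper88.OGT.act (cls_image hN) u x) =
        fun u => E (a u⁻¹ (E.symm x)) := funext fun u => hact u x
    rw [this]
    exact (H.symm.continuous.comp (h2 (E.symm x))).comp continuous_inv_perm

theorem good_M (strict : Bool) : Good strict (M strict) where
  inv := by
    rintro x ⟨α, hα, ⟨e, he⟩ | ⟨e, he⟩⟩ g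
    · exact ⟨α, hα, Or.inl ⟨g.symm.trans e, fun m n => he (g.symm m) (g.symm n)⟩⟩
    · exact ⟨α, hα, Or.inr ⟨g.symm.trans e, fun m n => he (g.symm m) (g.symm n)⟩⟩
  hom := by
    have key : ∀ (P : Type 1) (lt : P → P → Prop), IsStrictTotalOrder P lt →
        (∀ a b, ∃ g : P ≃ P, g a = b ∧ ∀ c d, lt (g c) (g d) ↔ lt c d) →
        ∀ (e : ℕ ≃ P) (x : Code),
        (∀ m n, x (m, n) = true ↔ (lt (e m) (e n) ∨ (strict = false ∧ e m = e n))) →
        ∃ r : ℕ → ℕ → Prop, IsStrictTotalOrder ℕ r ∧
        (∀ m n, x (m, n) = true ↔ (r m n ∨ (strict = false ∧ m = n))) ∧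
        ∀ m n, ∃ g : Equiv.Perm ℕ, g m = n ∧ ∀ a b, r (g a) (g b) ↔ r a b := by
      intro P lt hlt hom e x hx
      refine ⟨fun m n => lt (e m) (e n), ?_, fun m n => ?_, fun m n => ?_⟩
      · exact { trichotomous := fun a b h1 h2 => e.injective (hlt.toTrichotomous.trichotomous _ _ h1 h2)
                irrefl := fun a => hlt.toIsStrictOrder.toIrrefl.irrefl _
                trans := fun a b c h1 h2 => hlt.toIsStrictOrder.toIsTrans.trans _ _ _ h1 h2 }
      · rw [hx, e.injective.eq_iff]
      · obtain ⟨g, hg, hg'⟩ := hom (e m) (e n)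
        refine ⟨e.trans (g.trans e.symm), ?_, fun a b => ?_⟩
        · simp [hg]
        · simp [hg']
    rintro x ⟨α, hα, ⟨e, he⟩ | ⟨e, he⟩⟩
    · refine key (ZA α) (fun f g => ltZ f.1 g.1) ?_ ?_ (e.trans (toZPow α).symm) x ?_
      · exact { trichotomous := fun a b h1 h2 => by
                  by_contra hne
                  exact (ltZ_total a b hne).elim h1 h2
                irrefl := fun a => ltZ_irrefl _
                trans := fun a b c h1 h2 => ltZ_trans h1 h2 }
      · intro a b
        exact ⟨trZ a b, trZ_self a b, fun c d => trZ_lt a b c d⟩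
      · intro m n
        rw [he]
        show ZPow.lt (e m) (e n) ∨ _ ↔ ltZ ((toZPow α).symm (e m)).1 ((toZPow α).symm (e n)).1 ∨
          (strict = false ∧ (toZPow α).symm (e m) = (toZPow α).symm (e n))
        rw [← toZPow_lt, Equiv.apply_symm_apply, Equiv.apply_symm_apply,
          (toZPow α).symm.injective.eq_iff]
    · refine key (ℚ × ZA α) (fun p q => p.1 < q.1 ∨ (p.1 = q.1 ∧ ltZ p.2.1 q.2.1)) ?_ ?_
        (e.trans (Equiv.prodCongr (Equiv.refl ℚ) (toZPow α).symm)) x ?_
      · exact { trichotomous := fun a b h1 h2 => by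
                  push Not at h1 h2
                  have h3 : a.1 = b.1 := le_antisymm h2.1 h1.1
                  by_contra hne
                  have h4 : a.2 ≠ b.2 := fun h4 => hne (Prod.ext h3 h4)
                  exact (ltZ_total a.2 b.2 h4).elim (h1.2 h3) (h2.2 h3.symm)
                irrefl := fun a h => h.elim (lt_irrefl _) (fun h' => ltZ_irrefl _ h'.2)
                trans := by
                  rintro a b c (h1 | ⟨h1, h1'⟩) (h2 | ⟨h2, h2'⟩)
                  · exact Or.inl (h1.trans h2)
                  · exact Or.inl (by rw [← h2]; exact h1)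
                  · exact Or.inl (by rw [h1]; exact h2)
                  · exact Or.inr ⟨h1.trans h2, ltZ_trans h1' h2'⟩ }
      · intro a b
        refine ⟨Equiv.prodCongr (Equiv.addRight (b.1 - a.1)) (trZ a.2 b.2), ?_, fun c d => ?_⟩
        · apply Prod.ext
          · show a.1 + (b.1 - a.1) = b.1
            ring
          · exact trZ_self a.2 b.2
        · show (c.1 + (b.1 - a.1) < d.1 + (b.1 - a.1) ∨ (c.1 + (b.1 - a.1) = d.1 + (b.1 - a.1) ∧
            ltZ (trZ a.2 b.2 c.2).1 (trZ a.2 b.2 d.2).1)) ↔ _
          rw [trZ_lt, add_lt_add_iff_right, add_left_inj]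
      · intro m n
        rw [he]
        show QZlt (e m) (e n) ∨ _ ↔ ((e m).1 < (e n).1 ∨ ((e m).1 = (e n).1 ∧
          ltZ ((toZPow α).symm (e m).2).1 ((toZPow α).symm (e n).2).1)) ∨
          (strict = false ∧ ((e m).1, (toZPow α).symm (e m).2) = ((e n).1, (toZPow α).symm (e n).2))
        have h3 : (((e m).1, (toZPow α).symm (e m).2) = ((e n).1, (toZPow α).symm (e n).2)) ↔
            e m = e n := by
          constructor
          · intro h
            have h4 := congrArg Prod.fst h
            have h5 := (toZPow α).symm.injective (congrArg Prod.snd h)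
            exact Prod.ext h4 h5
          · intro h
            rw [h]
        rw [← toZPow_lt, Equiv.apply_symm_apply, Equiv.apply_symm_apply, h3]
        exact Iff.rfl
  pow := by
    intro α hα x hx
    exact ⟨α, hα, Or.inl hx⟩

end proof

/-- The set `M` of the problem is a good class, and no good class carries a Polish topology for
which the logic action is separately continuous (continuous in the point for every permutation, and
in the permutation for every point). In particular no Polish topology on `M` makes the action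
jointly continuous. -/
theorem result (strict : Bool) :
    Good strict (M strict) ∧
    ∀ N : Set Code, Good strict N → ∀ t : TopologicalSpace N, @PolishSpace N t →
      ∀ a : Equiv.Perm ℕ → N → N, (∀ g x, ((a g x : N) : Code) = act g x) →
        ¬ ((∀ g, @Continuous N N t t (a g)) ∧
          ∀ x, @Continuous (Equiv.Perm ℕ) N permTop t fun g => a g x) :=
  ⟨good_M strict, fun _ hN t hP a ha h => noTop hN t hP a ha h.1 h.2⟩

end Pool.Agent.Results.MP_09f6a2_lc.NoPolishTopology
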